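import Mathlib
import Pool.Agent.H55.CatalanMN

namespace Pool.Agent.Results.MP_558b4e_nt.Nonempty

/-- For every `n ≥ 1` there is `m ≥ 1` coprime to `n` with `m n ∣ C(m + n)`, where
`C(k) = binom(2k, k) / (k + 1)` is the Catalan number. -/
theorem result : ∀ n : ℕ, 0 < n → ∃ m : ℕ, 0 < m ∧ Nat.gcd m n = 1 ∧
    m * n ∣ Nat.choose (2 * (m + n)) (m + n) / (m + n + 1) := by
  intro n hn
  obtain ⟨m, h1, h2, h3⟩ := Pool.Agent.H55.CatalanMN.main n hn
  rw [catalan_eq_centralBinom_div] at h3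
  exact ⟨m, h1, h2, h3⟩

end Pool.Agent.Results.MP_558b4e_nt.Nonempty
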